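import Pool.Agent.Helper604.NSG

set_option autoImplicit false

namespace Pool.Agent.Results.MP_1dd8f3_al.InfiniteFromEight

open Pool.Agent.Helper604.NSG

/-- the supremum of the numbers of relations of the symmetric numerical semigroups of embedding
dimension `e` -/
noncomputable def supRel (k : Type*) [Field k] (e : ℕ) : ℕ∞ :=
  ⨆ Γ ∈ {Γ : AddSubmonoid ℕ | IsNumericalSemigroup Γ ∧ IsSymmetric Γ ∧ edim Γ = e}, rho k Γ

/-- For every `e ≥ 8` the number of relations of symmetric numerical semigroups of embedding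
dimension `e` is unbounded. -/
theorem result (k : Type*) [Field k] : ∀ e : ℕ, 8 ≤ e → supRel k e = ⊤ := by
  intro e he
  rw [ENat.eq_top_iff_forall_ge]
  intro N
  obtain ⟨G⟩ := Pool.Agent.Helper604.Glue.good e N he
  have h2 : sg G ∈ {Γ : AddSubmonoid ℕ | IsNumericalSemigroup Γ ∧ IsSymmetric Γ ∧ edim Γ = e} :=
    ⟨sg_num G, sg_symm G, sg_edim G⟩
  exact (rho_ge k G).trans (le_iSup₂ (f := fun Γ (_ : Γ ∈ {Γ : AddSubmonoid ℕ |
    IsNumericalSemigroup Γ ∧ IsSymmetric Γ ∧ edim Γ = e}) => rho k Γ) _ h2)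

end Pool.Agent.Results.MP_1dd8f3_al.InfiniteFromEight
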